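import Pool.Agent.MP_fd75d0_co.Basic

set_option autoImplicit false

namespace Pool.Agent.MP_fd75d0_co

open MvPolynomial

/-- h is a form of degree d killing the functional on forms of degree g -/
def Ann (ψ : R →+ F) (g d : ℤ) (h : R) : Prop :=
  h ∈ Hom d ∧ ∀ f ∈ Hom (g - d), ψ (h * f) = 0

lemma Ann.add {ψ : R →+ F} {g d : ℤ} {h h' : R} (h1 : Ann ψ g d h) (h2 : Ann ψ g d h') :
    Ann ψ g d (h + h') :=
  ⟨add_mem h1.1 h2.1, fun f hf => by rw [add_mul, map_add, h1.2 f hf, h2.2 f hf, add_zero]⟩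

lemma lower {ψ : R →+ F} {g d : ℤ} {h p : R} (hh : h ∈ Hom (d - 1)) (hy : Ann ψ g d (y * h))
    (hp : p ∈ Hom (g - (d - 1))) (hp1 : ev 1 0 p = 1) (hp0 : ψ (h * p) = 0) :
    Ann ψ g (d - 1) h := by
  refine ⟨hh, fun f hf => ?_⟩
  rcases F_cases (ev 1 0 f) with hc | hc
  · obtain ⟨f', hf', rfl⟩ := Ydiv hf hc
    have := hy.2 f' (by convert hf' using 2; ring)
    rw [← this]; congr 1; ring
  · obtain ⟨f', hf', e⟩ := Ydiv (add_mem hf hp) (by rw [map_add, hc, hp1]; decide)
    have e' : f = y * f' + p := by linear_combination e - p * two_R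
    have := hy.2 f' (by convert hf' using 2; ring)
    rw [e', mul_add, map_add, hp0, add_zero, ← this]; congr 1; ring

lemma uniq (d : ℕ) : ∀ (ψ : R →+ F) (g : ℤ), 2 * (d : ℤ) ≤ g + 1 →
    (∀ k, Ann ψ g ((d : ℤ) - 1) k → k = 0) →
    ∀ h h', Ann ψ g d h → Ann ψ g d h' → h ≠ 0 → h' ≠ 0 → h = h' := by
  induction d with
  | zero =>
    intro ψ g _ _ h h' h1 h2 n1 n2
    rcases Hom_zero h1.1 with e | e
    · exact absurd e n1
    rcases Hom_zero h2.1 with e' | e'
    · exact absurd e' n2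
    rw [e, e']
  | succ d ih =>
    intro ψ g hg hmin h h' h1 h2 n1 n2
    have key : ∀ h0 h2, Ann ψ g ((d + 1 : ℕ) : ℤ) h0 → Ann ψ g ((d + 1 : ℕ) : ℤ) h2 →
        ev 1 0 h0 = 0 → ev 1 0 h2 = 1 → h0 = 0 := by
      intro h0 h2 a0 a2 e0 e2
      obtain ⟨k, hk, rfl⟩ := Ydiv a0.1 e0
      obtain ⟨r, hr⟩ : ∃ r : ℕ, (r : ℤ) = g - 2 * d - 1 :=
        ⟨(g - 2 * d - 1).toNat, by push_cast at hg; omega⟩
      have := lower (p := x ^ r * h2) hk a0
        (Hom_mul (pow1_mem x_mem r rfl) a2.1 (by push_cast; omega)) (by simp [e2]) (by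
          have := a2.2 (k * x ^ r) (Hom_mul hk (pow1_mem x_mem r rfl) (by push_cast; omega))
          rw [← this]; congr 1; ring)
      rw [hmin k this, mul_zero]
    rcases F_cases (ev 1 0 h) with e | e <;> rcases F_cases (ev 1 0 h') with e' | e'
    · obtain ⟨k, hk, rfl⟩ := Ydiv h1.1 e
      obtain ⟨k', hk', rfl⟩ := Ydiv h2.1 e'
      have hd : ((d + 1 : ℕ) : ℤ) - 1 = d := by push_cast; ring
      rw [hd] at hk hk' hmin
      have := ih (ψ.comp (AddMonoidHom.mulLeft y)) (g - 1) (by push_cast at hg; omega) ?_ k k'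
        ⟨hk, ?_⟩ ⟨hk', ?_⟩ (fun e => n1 (by rw [e, mul_zero])) (fun e => n2 (by rw [e, mul_zero]))
      · rw [this]
      · intro l hl
        have : Ann ψ g d (y * l) := ⟨Hom_mul y_mem hl.1 (by ring), fun f hf => by
          have := hl.2 f (by convert hf using 2; ring)
          simpa [mul_assoc] using this⟩
        exact (mul_eq_zero.1 (hmin _ this)).resolve_left y_ne
      · intro f hf
        have := h1.2 f (by convert hf using 2; push_cast; ring)
        simpa [mul_assoc] using this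
      · intro f hf
        have := h2.2 f (by convert hf using 2; push_cast; ring)
        simpa [mul_assoc] using this
    · exact absurd (key h h' h1 h2 e e') n1
    · exact absurd (key h' h h2 h1 e' e) n2
    · exact eq_of_add_eq_zero_R (key (h + h') h (h1.add h2) h1
        (by rw [map_add, e, e']; decide) e)

lemma exists_ann (t : ℕ) (ψ : R →+ F) : ∃ h, h ≠ 0 ∧ Ann ψ (2 * (t : ℤ) - 1) t h := by
  classical
  let H : (Fin (t + 1) → F) → R := fun c => ∑ i : Fin (t + 1), C (c i) * (x ^ (i : ℕ) * y ^ (t - i))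
  have Hmem : ∀ c, H c ∈ Hom t := by
    intro c
    refine sum_mem fun i _ => ?_
    rcases F_cases (c i) with e | e
    · simp [e]
    · rw [e, map_one, one_mul]
      exact mon_mem _ _ (by have := i.2; omega)
  have Hinj : Function.Injective H := by
    intro c c' hcc
    funext j
    let φ : R →+* Polynomial F := eval₂Hom Polynomial.C ![Polynomial.X, 1]
    have hx : φ x = Polynomial.X := by simp [φ, x]
    have hy : φ y = 1 := by simp [φ, y]
    have hC : ∀ a, φ (C a) = Polynomial.C a := by intro a; simp [φ]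
    have := congrArg (fun f => (φ f).coeff j) hcc
    simp only [H, map_sum, map_mul, map_pow, hx, hy, hC, one_pow, mul_one,
      Polynomial.finsetSum_coeff, Polynomial.coeff_C_mul, Polynomial.coeff_X_pow] at this
    simpa [Fin.val_inj] using this
  let G : (Fin (t + 1) → F) → (Fin t → F) :=
    fun c k => ψ (H c * (x ^ (k : ℕ) * y ^ (t - 1 - k)))
  obtain ⟨c, c', hne, hG⟩ := Fintype.exists_ne_map_eq_of_card_lt G (by
    simp [Nat.pow_lt_pow_iff_right])
  refine ⟨H c + H c', fun e => hne (Hinj (eq_of_add_eq_zero_R e)), add_mem (Hmem c) (Hmem c'), ?_⟩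
  intro f hf
  refine Hom_ind (P := fun f => ψ ((H c + H c') * f) = 0) (by simp) ?_ ?_ hf
  · intro f g h1 h2; rw [mul_add, map_add, h1, h2, add_zero]
  · intro a b hab
    have ha : a < t := by omega
    have hb : b = t - 1 - a := by omega
    have := congrFun hG ⟨a, ha⟩
    simp only [G] at this
    rw [add_mul, map_add, hb, this, add_self_F]

end Pool.Agent.MP_fd75d0_co
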