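import Mathlib

set_option autoImplicit false

namespace Pool.Agent.MP_fd75d0_co

open MvPolynomial

abbrev F := ZMod 2
abbrev R := MvPolynomial (Fin 2) (ZMod 2)

noncomputable def x : R := X 0
noncomputable def y : R := X 1
noncomputable def z : R := X 0 + X 1

lemma z_eq : z = x + y := rfl

lemma two_R : (2 : R) = 0 := by
  have : ((2 : ℕ) : R) = 0 := CharP.cast_eq_zero R 2
  simpa using this

lemma add_self_R (f : R) : f + f = 0 := by linear_combination f * two_R

lemma add_self_F (a : F) : a + a = 0 := by revert a; decide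

lemma F_cases (a : F) : a = 0 ∨ a = 1 := by revert a; decide

lemma eq_of_add_eq_zero_R {f g : R} (h : f + g = 0) : f = g := by
  linear_combination h - g * two_R

lemma eq_of_add_eq_zero_F {f g : F} (h : f + g = 0) : f = g := by
  revert f g; decide

lemma sq_add_R (f g : R) : (f + g) ^ 2 = f ^ 2 + g ^ 2 := by
  linear_combination f * g * two_R

/-- substitution of two elements for the two variables -/
noncomputable def sb (p q : R) : R →+* R := eval₂Hom C ![p, q]

@[simp] lemma sb_x (p q : R) : sb p q x = p := by simp [sb, x]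
@[simp] lemma sb_y (p q : R) : sb p q y = q := by simp [sb, y]
@[simp] lemma sb_z (p q : R) : sb p q z = p + q := by simp [z_eq]

/-- evaluation at a point -/
noncomputable def ev (a b : F) : R →+* F := eval ![a, b]

@[simp] lemma ev_x (a b : F) : ev a b x = a := by simp [ev, x]
@[simp] lemma ev_y (a b : F) : ev a b y = b := by simp [ev, y]
@[simp] lemma ev_z (a b : F) : ev a b z = a + b := by simp [z_eq]

lemma x_ne : x ≠ 0 := fun h => by simpa using congrArg (ev 1 0) h
lemma y_ne : y ≠ 0 := fun h => by simpa using congrArg (ev 0 1) h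
lemma z_ne : z ≠ 0 := fun h => by simpa using congrArg (ev 0 1) h

/-- the transposition exchanging x and z -/
noncomputable def sg : R →+* R := sb z y
/-- the transposition exchanging y and z -/
noncomputable def ta : R →+* R := sb x z
/-- the cycle x to y to z to x -/
noncomputable def rh : R →+* R := sb y z

@[simp] lemma sg_x : sg x = z := by simp [sg]
@[simp] lemma sg_y : sg y = y := by simp [sg]
@[simp] lemma sg_z : sg z = x := by
  simp only [sg, sb_z]; rw [z_eq]; linear_combination y * two_R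
@[simp] lemma ta_x : ta x = x := by simp [ta]
@[simp] lemma ta_y : ta y = z := by simp [ta]
@[simp] lemma ta_z : ta z = y := by
  simp only [ta, sb_z]; rw [z_eq]; linear_combination x * two_R
@[simp] lemma rh_x : rh x = y := by simp [rh]
@[simp] lemma rh_y : rh y = z := by simp [rh]
@[simp] lemma rh_z : rh z = x := by
  simp only [rh, sb_z]; rw [z_eq]; linear_combination y * two_R

lemma hom_ext {S : Type*} [CommRing S] (f g : R →+* S) (hx : f x = g x) (hy : f y = g y) :
    f = g := by
  apply MvPolynomial.ringHom_ext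
  · intro r
    rcases F_cases r with rfl | rfl <;> simp
  · intro i
    fin_cases i
    · exact hx
    · exact hy

lemma sg_sg (f : R) : sg (sg f) = f := by
  have : sg.comp sg = RingHom.id R := hom_ext _ _ (by simp) (by simp)
  exact DFunLike.congr_fun this f

/-- forms of degree d -/
noncomputable def Hom (d : ℤ) : AddSubmonoid R :=
  AddSubmonoid.closure {f | ∃ a b : ℕ, (a : ℤ) + b = d ∧ f = x ^ a * y ^ b}

lemma Hom_ind {d : ℤ} {P : R → Prop} (h0 : P 0) (hadd : ∀ f g, P f → P g → P (f + g))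
    (hm : ∀ a b : ℕ, (a : ℤ) + b = d → P (x ^ a * y ^ b)) {f : R} (hf : f ∈ Hom d) : P f := by
  induction hf using AddSubmonoid.closure_induction with
  | mem f hf => obtain ⟨a, b, h, rfl⟩ := hf; exact hm a b h
  | zero => exact h0
  | add f g _ _ hf hg => exact hadd f g hf hg

lemma mon_mem {d : ℤ} (a b : ℕ) (h : (a : ℤ) + b = d) : x ^ a * y ^ b ∈ Hom d :=
  AddSubmonoid.subset_closure ⟨a, b, h, rfl⟩

lemma Hom_mul {d e k : ℤ} {f g : R} (hf : f ∈ Hom d) (hg : g ∈ Hom e) (h : d + e = k) :
    f * g ∈ Hom k := by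
  refine Hom_ind (P := fun f => f * g ∈ Hom k) (by simp) ?_ ?_ hf
  · intro f f' h1 h2; rw [add_mul]; exact add_mem h1 h2
  · intro a b hab
    refine Hom_ind (P := fun g => x ^ a * y ^ b * g ∈ Hom k) (by simp) ?_ ?_ hg
    · intro f f' h1 h2; rw [mul_add]; exact add_mem h1 h2
    · intro a' b' hab'
      have : x ^ a * y ^ b * (x ^ a' * y ^ b') = x ^ (a + a') * y ^ (b + b') := by ring
      rw [this]; apply mon_mem; push_cast; omega

lemma one_mem_Hom : (1 : R) ∈ Hom 0 := by simpa using mon_mem 0 0 (d := 0) (by simp)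
lemma x_mem : x ∈ Hom 1 := by simpa using mon_mem 1 0 (d := 1) (by simp)
lemma y_mem : y ∈ Hom 1 := by simpa using mon_mem 0 1 (d := 1) (by simp)
lemma z_mem : z ∈ Hom 1 := add_mem x_mem y_mem

lemma Hom_pow {d : ℤ} {f : R} (hf : f ∈ Hom d) (n : ℕ) : f ^ n ∈ Hom (n * d) := by
  induction n with
  | zero => simpa using one_mem_Hom
  | succ n ih => rw [pow_succ]; exact Hom_mul ih hf (by push_cast; ring)

lemma pow1_mem {d : ℤ} {f : R} (hf : f ∈ Hom 1) (n : ℕ) (h : (n : ℤ) = d) : f ^ n ∈ Hom d := by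
  have := Hom_pow hf n
  rwa [mul_one, h] at this

lemma mon3_mem {d : ℤ} (a b c : ℕ) (h : (a : ℤ) + b + c = d) :
    x ^ a * y ^ b * z ^ c ∈ Hom d :=
  Hom_mul (mon_mem a b rfl) (pow1_mem z_mem c rfl) h

lemma Hom_neg {d : ℤ} (hd : d < 0) {f : R} (hf : f ∈ Hom d) : f = 0 := by
  refine Hom_ind (P := fun f => f = 0) rfl ?_ ?_ hf
  · intro f g h1 h2; simp [h1, h2]
  · intro a b h; omega

lemma Hom_zero {f : R} (hf : f ∈ Hom 0) : f = 0 ∨ f = 1 := by
  refine Hom_ind (P := fun f => f = 0 ∨ f = 1) (Or.inl rfl) ?_ ?_ hf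
  · rintro f g (rfl | rfl) (rfl | rfl)
    · simp
    · simp
    · simp
    · left; exact add_self_R 1
  · intro a b h
    have ha : a = 0 := by omega
    have hb : b = 0 := by omega
    subst ha hb; simp

lemma Hom_map (φ : R →+* R) (hx : φ x ∈ Hom 1) (hy : φ y ∈ Hom 1) {d : ℤ} {f : R}
    (hf : f ∈ Hom d) : φ f ∈ Hom d := by
  refine Hom_ind (P := fun f => φ f ∈ Hom d) (by simp) ?_ ?_ hf
  · intro f g h1 h2; rw [map_add]; exact add_mem h1 h2
  · intro a b h
    rw [map_mul, map_pow, map_pow]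
    exact Hom_mul (pow1_mem hx a rfl) (pow1_mem hy b rfl) h

lemma sg_mem {d : ℤ} {f : R} (hf : f ∈ Hom d) : sg f ∈ Hom d :=
  Hom_map sg (by simpa using z_mem) (by simpa using y_mem) hf

lemma ta_mem {d : ℤ} {f : R} (hf : f ∈ Hom d) : ta f ∈ Hom d :=
  Hom_map ta (by simpa using x_mem) (by simpa using z_mem) hf

lemma rh_mem {d : ℤ} {f : R} (hf : f ∈ Hom d) : rh f ∈ Hom d :=
  Hom_map rh (by simpa using y_mem) (by simpa using z_mem) hf

/-- division by y of a form vanishing at the zero of y -/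
lemma Ydiv {d : ℤ} {f : R} (hf : f ∈ Hom d) (h0 : ev 1 0 f = 0) :
    ∃ f' ∈ Hom (d - 1), f = y * f' := by
  have key : ∃ f' ∈ Hom (d - 1), f = C (ev 1 0 f) * x ^ d.toNat + y * f' := by
    refine Hom_ind (P := fun f => ∃ f' ∈ Hom (d - 1), f = C (ev 1 0 f) * x ^ d.toNat + y * f')
      ⟨0, zero_mem _, by simp⟩ ?_ ?_ hf
    · rintro f g ⟨f', hf', h1⟩ ⟨g', hg', h2⟩
      refine ⟨f' + g', add_mem hf' hg', ?_⟩
      rw [map_add, map_add]
      linear_combination h1 + h2
    · intro a b h
      rcases b with _ | b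
      · refine ⟨0, zero_mem _, ?_⟩
        have : d.toNat = a := by omega
        simp [this]
      · refine ⟨x ^ a * y ^ b, mon_mem a b (by push_cast at h; omega), ?_⟩
        simp; ring
  obtain ⟨f', h1, h2⟩ := key
  exact ⟨f', h1, by rw [h0] at h2; simpa using h2⟩

end Pool.Agent.MP_fd75d0_co
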