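import Pool.Agent.MP_fd75d0_co.Subring

set_option autoImplicit false

namespace Pool.Agent.MP_fd75d0_co

open MvPolynomial

lemma rh3 (f : R) : rh (rh (rh f)) = f := by
  have : rh.comp (rh.comp rh) = RingHom.id R := hom_ext _ _ (by simp) (by simp)
  exact DFunLike.congr_fun this f

section
variable {ψ : R →+ F} {g : ℤ}

lemma psi_decomp (h3 : ∀ a ∈ A g, ψ a = 0) (h4 : ∀ a ∈ A (g - 2), ψ (a * (x * y)) = 0)
    {d : ℤ} {a b0 b1 b2 : R} (ha : a ∈ A d) (k0 : b0 ∈ A (g - d)) (k2 : b2 ∈ A (g - d - 2)) :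
    ψ (a * (b0 + b1 * x + b2 * (x * y))) = ψ (a * b1 * x) := by
  have e : a * (b0 + b1 * x + b2 * (x * y)) = a * b0 + a * b1 * x + a * b2 * (x * y) := by ring
  rw [e, map_add, map_add, h3 _ (A_mul ha k0 (by ring)), h4 _ (A_mul ha k2 (by ring))]
  simp

lemma ann_split (h3 : ∀ a ∈ A g, ψ a = 0) (h4 : ∀ a ∈ A (g - 2), ψ (a * (x * y)) = 0)
    {d : ℤ} (hmin : ∀ k, Ann ψ g (d - 1) k → k = 0) {h : R} (hh : Ann ψ g d h) :
    ∃ a0 ∈ A d, ∃ a2 ∈ A (d - 2), h = a0 + a2 * (x * y) ∧ Ann ψ g d a0 := by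
  obtain ⟨a0, h0, a1, h1, a2, h2, rfl⟩ := decomp hh.1
  have ha1 : a1 = 0 := by
    apply hmin
    refine ⟨A_Hom h1, fun f hf => ?_⟩
    obtain ⟨b0, k0, b1, k1, b2, k2, rfl⟩ := decomp hf
    rw [psi_decomp h3 h4 h1 k0 k2]
    have k1' : b1 ∈ A (g - d) := by convert k1 using 2; ring
    have := hh.2 b1 (A_Hom k1')
    rw [mul_comm, psi_decomp (d := g - d) h3 h4 k1' (by simpa using h0) (by simpa using h2)] at this
    rw [← this]; congr 1; ring
  subst ha1
  refine ⟨a0, h0, a2, h2, by simp, A_Hom h0, fun f hf => ?_⟩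
  obtain ⟨b0, k0, b1, k1, b2, k2, rfl⟩ := decomp hf
  rw [psi_decomp h3 h4 h0 k0 k2]
  have := hh.2 (b1 * x) (Hom_mul (A_Hom k1) x_mem (by ring))
  have e : (a0 + 0 * x + a2 * (x * y)) * (b1 * x)
      = a0 * b1 * x + a2 * b1 * (x * y ^ 2) + a2 * b1 * z * (x * y) := by
    rw [z_eq]; linear_combination (-(a2 * b1 * x * y ^ 2)) * two_R
  rw [e, map_add, map_add, h3 _ (A_mul (A_mul h2 k1 rfl) E_memA (by ring)),
    h4 _ (A_mul (A_mul h2 k1 rfl) z_memA (by ring))] at this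
  simpa using this

lemma boundary_case (h1 : ∀ f ∈ Hom g, ψ (sg f) = ψ f)
    (h2 : ∀ f ∈ Hom g, ψ f + ψ (rh f) + ψ (rh (rh f)) = 0) (h3 : ∀ a ∈ A g, ψ a = 0)
    (hg : 2 ≤ g) (hh : Ann ψ g 3 (x * y * z)) : ∀ f ∈ Hom g, ψ f = 0 := by
  obtain ⟨n, rfl⟩ : ∃ n : ℕ, g = (n : ℤ) + 2 := ⟨(g - 2).toNat, by omega⟩
  have step : ∀ a b : ℕ, a + b + 1 = n →
      ψ (x ^ (a + 2) * y ^ (b + 1)) = ψ (x ^ (a + 1) * y ^ (b + 2)) := by
    intro a b hab
    apply eq_of_add_eq_zero_F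
    rw [← map_add, ← hh.2 (x ^ a * y ^ b) (mon_mem a b (by omega))]
    congr 1; rw [z_eq]; ring
  have const : ∀ b a : ℕ, a + b = n →
      ψ (x ^ (a + 1) * y ^ (b + 1)) = ψ (x ^ (n + 1) * y) := by
    intro b
    induction b with
    | zero => intro a h; simp [← h]
    | succ b ih => intro a h; rw [← step a b (by omega), ih (a + 1) (by omega)]
  have m1 : x ^ (n + 1) * y ∈ Hom ((n : ℤ) + 2) :=
    Hom_mul (pow1_mem x_mem _ rfl) y_mem (by push_cast; ring)
  have m2 : x * y ^ (n + 1) ∈ Hom ((n : ℤ) + 2) :=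
    Hom_mul x_mem (pow1_mem y_mem _ rfl) (by push_cast; ring)
  have hz : ψ (z ^ (n + 2)) = 0 := by
    simpa using h3 _ (Amon_mem 0 (n + 2) (by push_cast; ring))
  have c1 := const n 0 (by omega)
  have s1 := h1 _ m1
  have s2 := h1 _ m2
  have r := h2 _ m1
  simp only [map_mul, map_pow, sg_x, sg_y, rh_x, rh_y, rh_z, zero_add, pow_one] at s1 s2 r c1
  have e1 : z ^ (n + 2) = z ^ (n + 1) * x + z ^ (n + 1) * y := by rw [pow_succ, ← mul_add, ← z_eq]
  rw [e1, map_add, s1] at hz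
  rw [mul_comm (y ^ (n + 1)) z, s2, c1, add_self_F, zero_add] at r
  rw [r, zero_add] at hz
  intro f hf
  refine Hom_ind (P := fun f => ψ f = 0) (by simp) ?_ ?_ hf
  · intro f g h1 h2; rw [map_add, h1, h2, add_zero]
  · intro a b hab
    rcases a with _ | a
    · obtain rfl : b = n + 2 := by omega
      have : x ^ 0 * y ^ (n + 2) = x * y ^ (n + 1) + z * y ^ (n + 1) := by
        rw [z_eq]; linear_combination (-(x * y ^ (n + 1))) * two_R
      rw [this, map_add, s2, add_self_F]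
    rcases b with _ | b
    · obtain rfl : a = n + 1 := by omega
      have := h1 (x ^ (n + 2)) (pow1_mem x_mem _ (by push_cast; ring))
      simp only [map_pow, sg_x] at this
      rw [pow_zero, mul_one, ← this]
      simpa using h3 _ (Amon_mem 0 (n + 2) (by push_cast; ring))
    · rw [const b a (by omega), hz]

theorem core (t : ℕ) (hg : g = 2 * (t : ℤ) - 1) (h1 : ∀ f ∈ Hom g, ψ (sg f) = ψ f)
    (h2 : ∀ f ∈ Hom g, ψ f + ψ (rh f) + ψ (rh (rh f)) = 0) (h3 : ∀ a ∈ A g, ψ a = 0)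
    (h4 : ∀ a ∈ A (g - 2), ψ (a * (x * y)) = 0) : ∀ f ∈ Hom g, ψ f = 0 := by
  classical
  have hex : ∃ d : ℕ, ∃ h, h ≠ 0 ∧ Ann ψ g d h := ⟨t, hg ▸ exists_ann t ψ⟩
  set d := Nat.find hex with hd
  obtain ⟨h, hne, hh⟩ : ∃ h, h ≠ 0 ∧ Ann ψ g d h := Nat.find_spec hex
  have hdt : d ≤ t := Nat.find_min' hex (hg ▸ exists_ann t ψ)
  have hmin : ∀ k, Ann ψ g ((d : ℤ) - 1) k → k = 0 := by
    intro k hk
    by_contra hk0
    rcases Nat.eq_zero_or_pos d with h0 | h0
    · exact hk0 (Hom_neg (by omega) hk.1)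
    · refine Nat.find_min hex (m := d - 1) (by omega) ⟨k, hk0, ?_⟩
      rwa [Nat.cast_pred h0]
  have hu := uniq d ψ g (by omega) hmin
  have hs : h = sg h := by
    refine hu _ _ hh ⟨sg_mem hh.1, fun f hf => ?_⟩ hne (fun e => hne (by rw [← sg_sg h, e, map_zero]))
    rw [← hh.2 (sg f) (sg_mem hf), ← h1 _ (Hom_mul hh.1 (sg_mem hf) (by ring)), map_mul sg, sg_sg]
  obtain ⟨a0, h0, a2, h2', e, ha0⟩ := ann_split h3 h4 hmin hh
  -- shape of h
  have shape : ∃ j k : ℕ, (k = 2 * j ∨ k + 1 = 2 * j) ∧ d = 2 * j + k ∧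
      h = x ^ j * y ^ k * z ^ j := by
    by_cases ha : a0 = 0
    · subst ha
      rw [zero_add] at e
      have hE : a2 * (x * y ^ 2) = sg (a2 * (x * y ^ 2)) := by
        have e1 : a2 * (x * y ^ 2) = h * y := by rw [e]; ring
        rw [e1, map_mul, ← hs, sg_y]
      have hm : a2 * (x * y ^ 2) ∈ A ((d : ℤ) + 1) := A_mul h2' E_memA (by ring)
      rcases lemB (d + 2) _ _ _ (by push_cast; omega) hm hm hE with r | ⟨j, hj, r⟩
      · exfalso; apply hne
        have : a2 = 0 :=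
          (mul_eq_zero.1 r).resolve_right (mul_ne_zero x_ne (pow_ne_zero _ y_ne))
        rw [e, this, zero_mul]
      · obtain ⟨j, rfl⟩ : ∃ l, j = l + 1 := ⟨j - 1, by omega⟩
        refine ⟨j + 1, 2 * j + 1, Or.inr (by ring), by omega, ?_⟩
        apply mul_left_cancel₀ y_ne
        rw [e]; linear_combination r
    · have e0 : a0 = h := hu _ _ ha0 hh ha hne
      rw [e0] at h0
      rcases lemB (d + 1) _ _ _ (by push_cast; omega) h0 h0 hs with r | ⟨j, hj, r⟩
      · exact absurd r hne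
      · exact ⟨j, 2 * j, Or.inl rfl, by omega, by rw [r]; ring⟩
  obtain ⟨j, k, hk, hdk, rfl⟩ := shape
  have hkj : k ≤ j := by
    by_contra hlt
    obtain ⟨m, rfl⟩ : ∃ m, k = j + m + 1 := ⟨k - j - 1, by omega⟩
    obtain ⟨r, hr⟩ : ∃ r : ℕ, (r : ℤ) = g - d + 1 - 2 * (m + 1) :=
      ⟨(g - d + 1 - 2 * (m + 1)).toNat, by omega⟩
    have hy : Ann ψ g d (y * (x ^ j * y ^ (j + m) * z ^ j)) := by
      convert hh using 1; ring
    have := lower (p := x ^ r * (x * z) ^ (m + 1)) (mon3_mem j (j + m) j (by push_cast; omega)) hy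
      (Hom_mul (pow1_mem x_mem r rfl) (Hom_pow (Hom_mul x_mem z_mem rfl) (m + 1))
        (by push_cast; omega)) (by simp) (by
        have hf : x ^ j * y ^ (j + m) * z ^ j * (x ^ r * (x * z) ^ (m + 1)) ∈ Hom g := by
          have : x ^ j * y ^ (j + m) * z ^ j * (x ^ r * (x * z) ^ (m + 1))
            = x ^ (j + r + m + 1) * y ^ (j + m) * z ^ (j + m + 1) := by ring
          rw [this]; apply mon3_mem; push_cast; omega
        have := h2 _ hf
        simp only [map_mul, map_pow, rh_x, rh_y, rh_z] at this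
        have e1 := hh.2 (x ^ (m + 1) * y ^ r * z ^ m) (mon3_mem _ _ _ (by push_cast; omega))
        have e2 := hh.2 (x ^ m * y ^ 0 * z ^ (r + m + 1)) (mon3_mem _ _ _ (by push_cast; omega))
        have f1 : y ^ j * z ^ (j + m) * x ^ j * (y ^ r * (y * x) ^ (m + 1))
          = x ^ j * y ^ (j + m + 1) * z ^ j * (x ^ (m + 1) * y ^ r * z ^ m) := by ring
        have f2 : z ^ j * x ^ (j + m) * y ^ j * (z ^ r * (z * y) ^ (m + 1))
          = x ^ j * y ^ (j + m + 1) * z ^ j * (x ^ m * y ^ 0 * z ^ (r + m + 1)) := by ring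
        rw [f1, f2, e1, e2] at this
        simpa using this)
    have := hmin _ this
    exact mul_ne_zero (mul_ne_zero (pow_ne_zero _ x_ne) (pow_ne_zero _ y_ne))
      (pow_ne_zero _ z_ne) this
  rcases hk with hk | hk
  · obtain rfl : j = 0 := by omega
    obtain rfl : k = 0 := by omega
    intro f hf
    have := hh.2 f (by rw [hdk]; simpa using hf)
    simpa using this
  · obtain rfl : j = 1 := by omega
    obtain rfl : k = 1 := by omega
    refine boundary_case h1 h2 h3 (by omega) ?_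
    rw [hdk] at hh
    simpa using hh

end

end Pool.Agent.MP_fd75d0_co
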