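import Pool.Agent.MP_fd75d0_co.Triangle

set_option autoImplicit false

namespace Pool.Agent.MP_fd75d0_co

open MvPolynomial Finset

/-- the integer 0 or 1 attached to a bit -/
def io (t : F) : ℤ := (t.val : ℤ)

lemma io_cast (t : F) : ((io t : ℤ) : F) = t := by revert t; decide
lemma io_add_one (t : F) : io (t + 1) = 1 - io t := by revert t; decide
lemma io_inj {a b : F} (h : io a = io b) : a = b := by revert a b; decide
lemma io_zero : io 0 = 0 := by decide
lemma io_cases (t : F) : io t = 0 ∨ io t = 1 := by revert t; decide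

noncomputable def Row (s : ℕ → F) (j L : ℕ) : ℤ := ∑ b ∈ range L, io (T s j b)

/-- degree of vertex i in the graph on N + 1 vertices -/
noncomputable def D (s : ℕ → F) (N i : ℕ) : ℤ :=
  ∑ a ∈ range i, io (T s a (i - 1 - a)) + Row s i (N - i)

lemma pal_even (f : ℕ → ℤ) (r : ℕ) (h : ∀ i j, i + j + 1 = 2 * r → f i = f j) :
    ∑ i ∈ range (2 * r), f i = 2 * ∑ i ∈ range r, f i := by
  rw [two_mul r, sum_range_add, two_mul, ← sum_range_reflect (fun i => f (r + i))]
  congr 1
  refine sum_congr rfl fun i hi => h _ _ ?_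
  have := mem_range.1 hi
  omega

lemma pal_odd (f : ℕ → ℤ) (r : ℕ) (h : ∀ i j, i + j = 2 * r → f i = f j) :
    ∑ i ∈ range (2 * r + 1), f i = 2 * ∑ i ∈ range r, f i + f r := by
  have e : 2 * r + 1 = (r + 1) + r := by ring
  rw [e, sum_range_add, sum_range_succ, two_mul, ← sum_range_reflect (fun i => f (r + 1 + i))]
  have : ∑ j ∈ range r, f (r + 1 + (r - 1 - j)) = ∑ j ∈ range r, f j := by
    refine sum_congr rfl fun i hi => h _ _ ?_
    have := mem_range.1 hi
    omega
  rw [this]; ring

lemma Row_cast (s : ℕ → F) (j r : ℕ) : ((Row s (j + 1) r : ℤ) : F) = T s j 0 + T s j r := by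
  induction r with
  | zero => simp [Row, add_self_F]
  | succ r ih =>
    rw [Row, sum_range_succ, Int.cast_add, ← Row, ih, io_cast, T_succ]
    have := add_self_F (T s j r)
    linear_combination this

section
variable {s : ℕ → F} {N : ℕ}

lemma D_last (hm : ∀ a b c, a + b + c + 1 = N → T s c b = T s a b + 0 ^ a + 0 ^ c)
    (M : ℕ) (hN : N = M + 1) : D s N 0 - D s N N = 2 * Row s 0 M - M := by
  subst hN
  have e : ∑ a ∈ range M, io (T s (a + 1) (M + 1 - 1 - (a + 1))) = M - Row s 0 M := by
    have : ∀ a ∈ range M, io (T s (a + 1) (M + 1 - 1 - (a + 1))) = 1 - io (T s 0 (M - 1 - a)) := by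
      intro a ha
      have := mem_range.1 ha
      have e : M + 1 - 1 - (a + 1) = M - 1 - a := by omega
      rw [e, hm 0 (M - 1 - a) (a + 1) (by omega)]
      simp [io_add_one]
    rw [sum_congr rfl this, sum_sub_distrib, sum_range_reflect (fun b => io (T s 0 b))]
    simp [Row]
  simp only [D, range_zero, sum_empty, zero_add, Nat.sub_zero, Nat.sub_self]
  rw [sum_range_succ', e]
  simp only [Row, sum_range_succ, range_zero, sum_empty, Nat.sub_zero, Nat.add_sub_cancel]
  ring

lemma D_mid (hm : ∀ a b c, a + b + c + 1 = N → T s c b = T s a b + 0 ^ a + 0 ^ c)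
    (b c : ℕ) (hN : N = b + c + 2) :
    D s N (b + 1) = io (s b) + 1 - io (s c) + Row s (b + 1) c + Row s (c + 1) b := by
  have e1 : N - (b + 1) = c + 1 := by omega
  have e : ∑ a ∈ range b, io (T s (a + 1) (b + 1 - 1 - (a + 1))) = Row s (c + 1) b := by
    have : ∀ a ∈ range b, io (T s (a + 1) (b + 1 - 1 - (a + 1))) = io (T s (c + 1) (b - 1 - a)) := by
      intro a ha
      have := mem_range.1 ha
      have e : b + 1 - 1 - (a + 1) = b - 1 - a := by omega
      rw [e, hm (a + 1) (b - 1 - a) (c + 1) (by omega)]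
      simp
    rw [sum_congr rfl this, sum_range_reflect (fun a => io (T s (c + 1) a))]
    rfl
  have e2 : T s (b + 1) c = s c + 1 := by
    rw [hm 0 c (b + 1) (by omega), T_zero]; simp
  have e3 : Row s (b + 1) (c + 1) = Row s (b + 1) c + io (T s (b + 1) c) := by
    rw [Row, sum_range_succ, ← Row]
  rw [D, e1, sum_range_succ', e, e3, e2, io_add_one]
  simp only [Nat.add_sub_cancel, Nat.sub_zero, T_zero]
  ring

lemma pal_T (hp : ∀ b c, b + c + 2 = N → s b = s c) :
    ∀ a b c, a + b + c + 2 = N → T s a b = T s a c := by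
  intro a
  induction a with
  | zero => intro b c h; rw [T_zero, T_zero]; exact hp b c (by omega)
  | succ a ih =>
    intro b c h
    rw [T_succ, T_succ, ih b (c + 1) (by omega), ih (b + 1) c (by omega), add_comm]

lemma ta_inv (hT : ∀ a b c, a + b + c + 2 = N → T s a b = T s a c) {f : R}
    (hf : f ∈ Hom ((N : ℤ) - 2)) : phi s (ta f) = phi s f := by
  refine Hom_ind (P := fun f => phi s (ta f) = phi s f) (by simp) ?_ ?_ hf
  · intro f g h1 h2; rw [map_add, map_add, h1, h2, map_add]
  · intro a b hab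
    simp only [map_mul, map_pow, ta_x, ta_y]
    have := phi_mon s a 0 b
    simp only [pow_zero, mul_one] at this
    rw [this, hT a 0 b (by omega)]; rfl

lemma central (hm : ∀ a b c, a + b + c + 1 = N → T s c b = T s a b + 0 ^ a + 0 ^ c)
    (hp : ∀ b c, b + c + 2 = N → s b = s c) (p r : ℕ) (hN : N = 2 * p + 2 * r + 3) :
    ∃ h : ℤ, D s N (2 * p + 1) = 1 + 2 * h ∧ (h : F) = T s (2 * p) 1 + T s (2 * p) r := by
  have hT := pal_T hp
  have e0 := D_mid hm (2 * p) (2 * r + 1) (by omega)
  rw [hp (2 * p) (2 * r + 1) (by omega)] at e0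
  have e1 : Row s (2 * p + 1) (2 * r + 1) = 2 * Row s (2 * p + 1) r := by
    rw [Row, pal_odd _ r (fun i j hij => by rw [hT _ i j (by omega)]), T_succ,
      hT (2 * p) r (r + 1) (by omega), add_self_F, io_zero, add_zero, Row]
  have e2 : Row s (2 * r + 1 + 1) (2 * p) = 2 * Row s (2 * r + 1 + 1) p := by
    rw [Row, pal_even _ p (fun i j hij => by rw [hT _ i j (by omega)]), Row]
  refine ⟨Row s (2 * p + 1) r + Row s (2 * r + 1 + 1) p, by rw [e0, e1, e2]; ring, ?_⟩
  rw [Int.cast_add, Row_cast, Row_cast, T_succ s (2 * r) p, hT (2 * r) p (p + 1) (by omega),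
    add_self_F, add_zero, hm (2 * p + 1) 0 (2 * r + 1) (by omega), T_succ]
  have := add_self_F (T s (2 * p) 0)
  simp only [ne_eq, Nat.add_eq_zero_iff, one_ne_zero, and_false, not_false_eq_true, zero_pow,
    add_zero, zero_add]
  linear_combination this

theorem odd_regular (d : ℤ) (hd : Odd d) (hD : ∀ i ≤ N, D s N i = d) : N = 1 ∧ s 0 = 1 := by
  have hpar : ∀ i ≤ N,
      ∑ a ∈ range i, T s a (i - 1 - a) + ∑ b ∈ range (N - i), T s i b = 1 := by
    intro i hi
    have := congrArg (Int.cast : ℤ → F) (hD i hi)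
    obtain ⟨k, rfl⟩ := hd
    simp only [D, Row, Int.cast_add, Int.cast_sum, io_cast, Int.cast_mul, Int.cast_one,
      Int.cast_ofNat] at this
    rw [this]
    have h2 : (2 : F) = 0 := by decide
    rw [h2]; simp
  have hm := mirror_T s N hpar
  rcases Nat.eq_zero_or_pos N with h0 | h0
  · have := hpar 0 (by omega)
    simp [h0] at this
  obtain ⟨M, hM⟩ : ∃ M, N = M + 1 := ⟨N - 1, by omega⟩
  have hW : 2 * Row s 0 M = M := by
    have := D_last hm M hM
    rw [hD 0 (by omega), hD N le_rfl] at this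
    linarith
  have hp : ∀ b c, b + c + 2 = N → s b = s c := by
    intro b c h
    have e1 := D_mid hm b c h.symm
    have e2 := D_mid hm c b (by omega)
    rw [hD _ (by omega)] at e1 e2
    apply io_inj; linarith
  have hT := pal_T hp
  obtain ⟨r, hr⟩ : ∃ r, M = 2 * r := ⟨M / 2, by omega⟩
  have hW2 : Row s 0 M = 2 * Row s 0 r := by
    rw [hr, Row, pal_even _ r (fun i j hij => by rw [hT _ i j (by omega)]), Row]
  obtain ⟨t, ht⟩ : ∃ t, M = 4 * t := ⟨M / 4, by omega⟩
  rcases t with _ | t
  · have hN : N = 1 := by omega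
    refine ⟨hN, ?_⟩
    have := hpar 0 (by omega)
    simpa [hN, T_zero] using this
  exfalso
  have hc : ∀ p r, N = 2 * p + 2 * r + 3 → T s (2 * p) 1 = T s (2 * p) r := by
    intro p r h
    obtain ⟨h1, e1, c1⟩ := central hm hp p r h
    obtain ⟨h2, e2, c2⟩ := central hm hp (2 * t + 1) 0 (by omega)
    rw [hD _ (by omega)] at e1 e2
    have : h1 = h2 := by omega
    rw [this, c2, hT _ 1 0 (by omega), add_self_F] at c1
    exact eq_of_add_eq_zero_F c1.symm
  let χ : R →+ F := (phi s).comp (AddMonoidHom.mulLeft (x ^ 2 * y * z ^ 2))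
  have hχ : ∀ f, χ f = phi s (x ^ 2 * y * z ^ 2 * f) := fun f => rfl
  have m5 : x ^ 2 * y * z ^ 2 ∈ Hom 5 := by
    simpa using mon3_mem (d := 5) 2 1 2 (by norm_num)
  have m4 : x ^ 2 * y * z ∈ Hom 4 := by
    simpa using mon3_mem (d := 4) 2 1 1 (by norm_num)
  have key := sym_zero χ (2 * (t : ℤ) - 1) t rfl ?_ ?_ ?_
  · have z2 : ∀ b, b + 6 ≤ N → T s 2 (b + 1) = 0 := by
      intro b hb
      have := key (x ^ 0 * y ^ b * z ^ (N - 6 - b)) (mon3_mem _ _ _ (by omega))
      rw [hχ] at this
      rw [← phi_mon s 2 (b + 1) (2 + (N - 6 - b)), ← this]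
      congr 1; ring
    have c1 : ∀ b, b + 5 ≤ N → T s 1 (b + 1) = T s 1 1 := by
      intro b
      induction b with
      | zero => intro _; rfl
      | succ b ih =>
        intro hb
        rw [← ih (by omega)]
        have := z2 b (by omega)
        rw [T_succ] at this
        exact (eq_of_add_eq_zero_F this).symm
    have c0 : T s 1 1 = 0 := by
      rw [← c1 (2 * t) (by omega), T_succ, hT 0 _ (2 * t + 1 + 1) (by omega), add_self_F]
    have c2 : T s 1 0 = 0 := by
      have e1 := T_succ s 1 0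
      rw [hT 2 0 (4 * t + 1) (by omega), hm 1 (4 * t + 1) 2 (by omega), c1 _ (by omega), c0] at e1
      simpa using e1.symm
    have c3 : ∀ b, b + 3 ≤ N → T s 1 b = 0 := by
      intro b hb
      rcases b with _ | b
      · exact c2
      by_cases h : b + 5 ≤ N
      · rw [c1 b h, c0]
      · rw [hT 1 (b + 1) 0 (by omega), c2]
    have c4 : ∀ b, b + 2 ≤ N → s b = s 0 := by
      intro b
      induction b with
      | zero => intro _; rfl
      | succ b ih =>
        intro hb
        have := c3 b (by omega)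
        rw [T_succ, T_zero, T_zero] at this
        rw [← ih (by omega)]
        exact (eq_of_add_eq_zero_F this).symm
    have c5 : Row s 0 M = M * io (s 0) := by
      rw [Row, sum_congr rfl (g := fun _ => io (s 0))]
      · simp
      · intro b hb
        have := mem_range.1 hb
        rw [T_zero, c4 b (by omega)]
    rw [c5] at hW
    rcases io_cases (s 0) with e | e <;> rw [e] at hW <;> omega
  · intro f hf
    have := mirror s N hpar (Hom_mul m5 hf (k := (N : ℤ) - 1) (by omega))
    have e2 : (1 : F) + 1 = 0 := by decide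
    simp only [map_mul, map_pow, sg_x, sg_y, sg_z, ev_x, ev_y, ev_z, e2] at this
    rw [hχ, hχ]
    have e : x ^ 2 * y * z ^ 2 * sg f = z ^ 2 * y * x ^ 2 * sg f := by ring
    rw [e, this]; simp
  · intro f hf
    have := ta_inv hT (Hom_mul m4 hf (k := (N : ℤ) - 2) (by omega))
    simp only [map_mul, map_pow, ta_x, ta_y, ta_z] at this
    rw [hχ, hχ]
    have e : x ^ 2 * y * z ^ 2 * ta f = x ^ 2 * z * y * ta f * z := by ring
    have e' : x ^ 2 * y * z ^ 2 * f = x ^ 2 * y * z * f * z := by ring
    rw [e, e', phi_z, phi_z, this]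
  · intro a b hab
    rw [hχ, hχ]
    have e : x ^ 2 * y * z ^ 2 * (x ^ (2 * a) * y ^ (2 * b + 1))
      = x ^ (2 * (a + 1)) * y ^ (2 * b + 2) * z ^ 2 := by ring
    have e' : x ^ 2 * y * z ^ 2 * (x ^ (2 * a) * y ^ (b + 1) * z ^ b)
      = x ^ (2 * (a + 1)) * y ^ (b + 2) * z ^ (b + 2) := by ring
    rw [e, e', phi_mon, phi_mon, hT _ (2 * b + 2) 1 (by omega), hT _ (b + 2) (b + 1) (by omega)]
    exact hc (a + 1) (b + 1) (by omega)

end

lemma degree_eq (s : ℕ → F) (n : ℕ) (v : Fin (n + 1)) :
    (((SimpleGraph.fromRel (fun u w : Fin (n + 1) =>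
            u < w ∧
              (∑ k ∈ Finset.range (u.val + 1),
                  ((Nat.choose u.val k : ℕ) : ZMod 2) * s (w.val - k - 1)) = 1)).neighborSet v).ncard : ℤ)
      = D s n v := by
  classical
  set G := SimpleGraph.fromRel (fun u w : Fin (n + 1) =>
            u < w ∧
              (∑ k ∈ Finset.range (u.val + 1),
                  ((Nat.choose u.val k : ℕ) : ZMod 2) * s (w.val - k - 1)) = 1) with hG
  let e : ℕ → ℤ := fun w => if w < v then io (T s w (v - 1 - w)) else
    if (v : ℕ) < w then io (T s v (w - 1 - v)) else 0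
  have io_if : ∀ t : F, io t = if t = 1 then 1 else 0 := by decide
  have h1 : ((G.neighborSet v).ncard : ℤ) = ∑ w : Fin (n + 1), e w := by
    rw [Set.ncard_eq_toFinset_card', Finset.card_eq_sum_ones, Nat.cast_sum]
    have : (G.neighborSet v).toFinset = univ.filter (fun w => G.Adj v w) := by
      ext w; simp
    rw [this, sum_filter]
    refine sum_congr rfl fun w _ => ?_
    simp only [hG, SimpleGraph.fromRel_adj, e, io_if, T_formula]
    rcases lt_trichotomy v w with h | h | h
    · have h' : (v : ℕ) < w := h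
      have e1 : (v : ℕ) + 1 + (w - 1 - v) = w := by omega
      simp [h, h.ne, not_lt.2 h.le, h', not_lt.2 h'.le, e1]
    · subst h; simp
    · have h' : (w : ℕ) < v := h
      have e1 : (w : ℕ) + 1 + (v - 1 - w) = v := by omega
      simp [h, h.ne', not_lt.2 h.le, h', e1]
  rw [h1, Fin.sum_univ_eq_sum_range e (n + 1)]
  have hv : range (n + 1) = range ((v + 1) + (n - v)) := by
    congr 1; have := v.2; omega
  rw [hv, sum_range_add, sum_range_succ, D, Row]
  congr 1
  · have : e v = 0 := by simp [e]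
    rw [this, add_zero]
    refine sum_congr rfl fun a ha => ?_
    simp [e, mem_range.1 ha]
  · refine sum_congr rfl fun a _ => ?_
    have h1 : ¬ ((v : ℕ) + 1 + a < v) := by omega
    have h2 : (v : ℕ) < v + 1 + a := by omega
    have h3 : (v : ℕ) + 1 + a - 1 - v = a := by omega
    simp only [e, h1, h2, h3, if_true, if_false]

end Pool.Agent.MP_fd75d0_co
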