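import Pool.Agent.MP_fd75d0_co.Apolar

set_option autoImplicit false

namespace Pool.Agent.MP_fd75d0_co

open MvPolynomial

/-- forms of degree d which are polynomials in x y y and z -/
noncomputable def A (d : ℤ) : AddSubmonoid R :=
  AddSubmonoid.closure {f | ∃ i k : ℕ, 3 * (i : ℤ) + k = d ∧ f = (x * y ^ 2) ^ i * z ^ k}

lemma A_ind {d : ℤ} {P : R → Prop} (h0 : P 0) (hadd : ∀ f g, P f → P g → P (f + g))
    (hm : ∀ i k : ℕ, 3 * (i : ℤ) + k = d → P ((x * y ^ 2) ^ i * z ^ k)) {f : R} (hf : f ∈ A d) :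
    P f := by
  induction hf using AddSubmonoid.closure_induction with
  | mem f hf => obtain ⟨a, b, h, rfl⟩ := hf; exact hm a b h
  | zero => exact h0
  | add f g _ _ hf hg => exact hadd f g hf hg

lemma Amon_mem {d : ℤ} (i k : ℕ) (h : 3 * (i : ℤ) + k = d) : (x * y ^ 2) ^ i * z ^ k ∈ A d :=
  AddSubmonoid.subset_closure ⟨i, k, h, rfl⟩

lemma A_mul {d e k : ℤ} {f g : R} (hf : f ∈ A d) (hg : g ∈ A e) (h : d + e = k) :
    f * g ∈ A k := by
  refine A_ind (P := fun f => f * g ∈ A k) (by simp) ?_ ?_ hf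
  · intro f f' h1 h2; rw [add_mul]; exact add_mem h1 h2
  · intro a b hab
    refine A_ind (P := fun g => (x * y ^ 2) ^ a * z ^ b * g ∈ A k) (by simp) ?_ ?_ hg
    · intro f f' h1 h2; rw [mul_add]; exact add_mem h1 h2
    · intro a' b' hab'
      have : (x * y ^ 2) ^ a * z ^ b * ((x * y ^ 2) ^ a' * z ^ b')
          = (x * y ^ 2) ^ (a + a') * z ^ (b + b') := by ring
      rw [this]; apply Amon_mem; push_cast; omega

lemma z_memA : z ∈ A 1 := by simpa using Amon_mem 0 1 (d := 1) (by simp)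
lemma E_memA : x * y ^ 2 ∈ A 3 := by simpa using Amon_mem 1 0 (d := 3) (by simp)
lemma one_memA : (1 : R) ∈ A 0 := by simpa using Amon_mem 0 0 (d := 0) (by simp)

lemma A_Hom {d : ℤ} {f : R} (hf : f ∈ A d) : f ∈ Hom d := by
  refine A_ind (P := fun f => f ∈ Hom d) (zero_mem _) (fun f g => add_mem) ?_ hf
  intro i k h
  have : (x * y ^ 2) ^ i * z ^ k = x ^ i * y ^ (2 * i) * z ^ k := by ring
  rw [this]; apply mon3_mem; push_cast; omega

lemma A_neg {d : ℤ} (hd : d < 0) {f : R} (hf : f ∈ A d) : f = 0 := Hom_neg hd (A_Hom hf)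

/-- the polynomial ring is generated by 1, x, x y over the subring -/
lemma decomp {d : ℤ} {f : R} (hf : f ∈ Hom d) :
    ∃ a0 ∈ A d, ∃ a1 ∈ A (d - 1), ∃ a2 ∈ A (d - 2), f = a0 + a1 * x + a2 * (x * y) := by
  refine Hom_ind (P := fun f =>
    ∃ a0 ∈ A d, ∃ a1 ∈ A (d - 1), ∃ a2 ∈ A (d - 2), f = a0 + a1 * x + a2 * (x * y))
    ⟨0, zero_mem _, 0, zero_mem _, 0, zero_mem _, by simp⟩ ?_ ?_ hf
  · rintro f g ⟨a0, h0, a1, h1, a2, h2, rfl⟩ ⟨b0, k0, b1, k1, b2, k2, rfl⟩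
    exact ⟨a0 + b0, add_mem h0 k0, a1 + b1, add_mem h1 k1, a2 + b2, add_mem h2 k2, by ring⟩
  · have mulx : ∀ (d : ℤ) (f : R),
        (∃ a0 ∈ A d, ∃ a1 ∈ A (d - 1), ∃ a2 ∈ A (d - 2), f = a0 + a1 * x + a2 * (x * y)) →
        (∃ a0 ∈ A (d + 1), ∃ a1 ∈ A (d + 1 - 1), ∃ a2 ∈ A (d + 1 - 2),
          f * x = a0 + a1 * x + a2 * (x * y)) := by
      rintro d f ⟨a0, h0, a1, h1, a2, h2, rfl⟩
      refine ⟨a2 * (x * y ^ 2), A_mul h2 E_memA (by ring), a0 + a1 * z,
        add_mem (by simpa using h0) (A_mul h1 z_memA (by ring)), a1 + a2 * z,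
        add_mem (by convert h1 using 2; ring) (A_mul h2 z_memA (by ring)), ?_⟩
      rw [z_eq]
      linear_combination (-(a1 * x * y) - a2 * x * y ^ 2) * two_R
    have mulz : ∀ (d : ℤ) (f : R),
        (∃ a0 ∈ A d, ∃ a1 ∈ A (d - 1), ∃ a2 ∈ A (d - 2), f = a0 + a1 * x + a2 * (x * y)) →
        (∃ a0 ∈ A (d + 1), ∃ a1 ∈ A (d + 1 - 1), ∃ a2 ∈ A (d + 1 - 2),
          f * z = a0 + a1 * x + a2 * (x * y)) := by
      rintro d f ⟨a0, h0, a1, h1, a2, h2, rfl⟩
      exact ⟨a0 * z, A_mul h0 z_memA (by ring), a1 * z, A_mul h1 z_memA (by ring), a2 * z,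
        A_mul h2 z_memA (by ring), by ring⟩
    intro a b hab
    clear hf
    subst hab
    induction a with
    | zero =>
      induction b with
      | zero => exact ⟨1, by simpa using one_memA, 0, zero_mem _, 0, zero_mem _, by simp⟩
      | succ b ih =>
        obtain ⟨a0, h0, a1, h1, a2, h2, e⟩ := mulx _ _ ih
        obtain ⟨b0, k0, b1, k1, b2, k2, e'⟩ := mulz _ _ ih
        have hd : (((0 : ℕ) : ℤ) + ((b + 1 : ℕ) : ℤ)) = ((0 : ℕ) : ℤ) + (b : ℤ) + 1 := by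
          push_cast; ring
        rw [hd]
        refine ⟨a0 + b0, add_mem h0 k0, a1 + b1, add_mem h1 k1, a2 + b2, add_mem h2 k2, ?_⟩
        rw [z_eq] at e'
        linear_combination e + e' - (x ^ 0 * y ^ b * x) * two_R
    | succ a ih =>
      obtain ⟨a0, h0, a1, h1, a2, h2, e⟩ := mulx _ _ ih
      have hd : (((a + 1 : ℕ) : ℤ) + (b : ℤ)) = (a : ℤ) + (b : ℤ) + 1 := by
        push_cast; ring
      rw [hd]
      exact ⟨a0, h0, a1, h1, a2, h2, by linear_combination e⟩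

lemma Ediv {d : ℤ} {f : R} (hf : f ∈ A d) (h0 : ev 1 0 f = 0) :
    ∃ f' ∈ A (d - 3), f = x * y ^ 2 * f' := by
  have key : ∃ f' ∈ A (d - 3), f = C (ev 1 0 f) * z ^ d.toNat + x * y ^ 2 * f' := by
    refine A_ind
      (P := fun f => ∃ f' ∈ A (d - 3), f = C (ev 1 0 f) * z ^ d.toNat + x * y ^ 2 * f')
      ⟨0, zero_mem _, by simp⟩ ?_ ?_ hf
    · rintro f g ⟨f', hf', h1⟩ ⟨g', hg', h2⟩
      refine ⟨f' + g', add_mem hf' hg', ?_⟩
      rw [map_add, map_add]
      linear_combination h1 + h2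
    · intro a b h
      rcases a with _ | a
      · refine ⟨0, zero_mem _, ?_⟩
        have : d.toNat = b := by omega
        simp [this]
      · refine ⟨(x * y ^ 2) ^ a * z ^ b, Amon_mem a b (by push_cast at h; omega), ?_⟩
        simp; ring
  obtain ⟨f', h1, h2⟩ := key
  exact ⟨f', h1, by rw [h0] at h2; simpa using h2⟩

lemma ev_sg (f : R) : ev 1 0 (sg f) = ev 1 0 f := by
  have : (ev 1 0).comp sg = ev 1 0 := hom_ext _ _ (by simp) (by simp)
  exact DFunLike.congr_fun this f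

lemma lemC (n : ℕ) : ∀ (da db : ℤ) (i k : ℕ) (a b : R), da + db < n → a ∈ A da → b ∈ A db →
    x ^ i * y * a = z ^ k * sg b → a = 0 := by
  induction n with
  | zero =>
    intro da db i k a b hn ha hb e
    by_cases h : da < 0
    · exact A_neg h ha
    · rw [A_neg (by push_cast at hn; omega) hb, map_zero, mul_zero] at e
      exact (mul_eq_zero.1 e).resolve_left (mul_ne_zero (pow_ne_zero _ x_ne) y_ne)
  | succ n ih =>
    intro da db i k a b hn ha hb e
    have h0 : ev 1 0 b = 0 := by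
      have := congrArg (ev 1 0) e
      simpa [ev_sg] using this.symm
    obtain ⟨b', hb', rfl⟩ := Ediv hb h0
    have e1 : x ^ i * a = z ^ (k + 1) * y * sg b' := by
      apply mul_left_cancel₀ y_ne
      simp only [map_mul, map_pow, sg_x, sg_y] at e
      linear_combination e
    have e2 : x ^ (k + 1) * y * b' = z ^ i * sg a := by
      have := congrArg sg e1
      simp only [map_mul, map_pow, sg_x, sg_y, sg_z, sg_sg] at this
      exact this.symm
    have := ih (db - 3) da (k + 1) i b' a (by push_cast at hn; omega) hb' ha e2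
    rw [this, map_zero, mul_zero] at e1
    exact (mul_eq_zero.1 e1).resolve_left (pow_ne_zero _ x_ne)

lemma A_even {m : ℤ} {f : R} (hf : f ∈ A (2 * m)) :
    ∃ a0 ∈ A m, ∃ a3 ∈ A (m - 2), f = a0 ^ 2 + x * y ^ 2 * z * a3 ^ 2 := by
  refine A_ind (P := fun f => ∃ a0 ∈ A m, ∃ a3 ∈ A (m - 2), f = a0 ^ 2 + x * y ^ 2 * z * a3 ^ 2)
    ⟨0, zero_mem _, 0, zero_mem _, by simp⟩ ?_ ?_ hf
  · rintro f g ⟨a0, h0, a1, h1, rfl⟩ ⟨b0, k0, b1, k1, rfl⟩
    exact ⟨a0 + b0, add_mem h0 k0, a1 + b1, add_mem h1 k1, by rw [sq_add_R, sq_add_R]; ring⟩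
  · intro i k h
    rcases Nat.even_or_odd' i with ⟨i, rfl | rfl⟩
    · obtain ⟨k, rfl⟩ : ∃ l, k = 2 * l := ⟨k / 2, by omega⟩
      exact ⟨_, Amon_mem i k (by push_cast at h; omega), 0, zero_mem _, by ring⟩
    · obtain ⟨k, rfl⟩ : ∃ l, k = 2 * l + 1 := ⟨k / 2, by omega⟩
      exact ⟨0, zero_mem _, _, Amon_mem i k (by push_cast at h; omega), by ring⟩

lemma A_odd {m : ℤ} {f : R} (hf : f ∈ A (2 * m + 1)) :
    ∃ a1 ∈ A (m - 1), ∃ a2 ∈ A m, f = x * (y * a1) ^ 2 + z * a2 ^ 2 := by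
  refine A_ind (P := fun f => ∃ a1 ∈ A (m - 1), ∃ a2 ∈ A m, f = x * (y * a1) ^ 2 + z * a2 ^ 2)
    ⟨0, zero_mem _, 0, zero_mem _, by simp⟩ ?_ ?_ hf
  · rintro f g ⟨a0, h0, a1, h1, rfl⟩ ⟨b0, k0, b1, k1, rfl⟩
    exact ⟨a0 + b0, add_mem h0 k0, a1 + b1, add_mem h1 k1, by
      rw [mul_add y, sq_add_R, sq_add_R]; ring⟩
  · intro i k h
    rcases Nat.even_or_odd' i with ⟨i, rfl | rfl⟩
    · obtain ⟨k, rfl⟩ : ∃ l, k = 2 * l + 1 := ⟨k / 2, by omega⟩
      exact ⟨0, zero_mem _, _, Amon_mem i k (by push_cast at h; omega), by ring⟩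
    · obtain ⟨k, rfl⟩ : ∃ l, k = 2 * l := ⟨k / 2, by omega⟩
      exact ⟨_, Amon_mem i k (by push_cast at h; omega), 0, zero_mem _, by ring⟩

lemma pd_sq (i : Fin 2) (f : R) : pderiv i (f ^ 2) = 0 := by
  rw [pow_two, Derivation.leibniz, smul_eq_mul, add_self_R]

lemma pd_mul_sq (i : Fin 2) (f g : R) : pderiv i (f * g ^ 2) = pderiv i f * g ^ 2 := by
  rw [Derivation.leibniz, pd_sq]; simp [mul_comm]

lemma sq_inj {f g : R} (h : f ^ 2 = g ^ 2) : f = g := by
  apply eq_of_add_eq_zero_R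
  have : (f + g) ^ 2 = 0 := by rw [sq_add_R, h, add_self_R]
  exact pow_eq_zero_iff (two_ne_zero) |>.1 this

lemma pd1_x : pderiv (1 : Fin 2) x = 0 := by simp [x]
lemma pd1_z : pderiv (1 : Fin 2) z = 1 := by simp [z]

lemma split_even {a b a' b' : R} (h : a ^ 2 + x * z * b ^ 2 = a' ^ 2 + x * z * b' ^ 2) :
    a = a' ∧ b = b' := by
  have h1 := congrArg (pderiv (1 : Fin 2)) h
  simp only [map_add, pd_sq, pd_mul_sq, zero_add] at h1
  have h2 : pderiv (1 : Fin 2) (x * z) = x := by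
    rw [Derivation.leibniz, pd1_x, pd1_z]; simp
  rw [h2] at h1
  have hb : b = b' := sq_inj (mul_left_cancel₀ x_ne h1)
  subst hb
  exact ⟨sq_inj (add_right_cancel h), rfl⟩

lemma split_odd {a b a' b' : R} (h : x * a ^ 2 + z * b ^ 2 = x * a' ^ 2 + z * b' ^ 2) :
    a = a' ∧ b = b' := by
  have h1 := congrArg (pderiv (1 : Fin 2)) h
  simp only [map_add, pd_mul_sq, pd1_x, pd1_z, zero_mul, one_mul, zero_add] at h1
  have hb : b = b' := sq_inj h1
  subst hb
  exact ⟨sq_inj (mul_left_cancel₀ x_ne (add_right_cancel h)), rfl⟩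

/-- the intersection of the subring with its mirror image -/
lemma lemB (n : ℕ) : ∀ (d : ℤ) (a b : R), d < n → a ∈ A d → b ∈ A d → a = sg b →
    a = 0 ∨ ∃ j : ℕ, d = 4 * j ∧ a = (x * y ^ 2 * z) ^ j := by
  induction n with
  | zero => intro d a b hd ha _ _; exact Or.inl (A_neg (by simpa using hd) ha)
  | succ n ih =>
    intro d a b hd ha hb e
    rcases lt_trichotomy d 0 with h | h | h
    · exact Or.inl (A_neg h ha)
    · subst h
      rcases Hom_zero (A_Hom ha) with h | h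
      · exact Or.inl h
      · exact Or.inr ⟨0, by simp, by simpa using h⟩
    rcases Int.even_or_odd' d with ⟨m, rfl | rfl⟩
    · obtain ⟨a0, h0, a3, h3, rfl⟩ := A_even ha
      obtain ⟨b0, k0, b3, k3, rfl⟩ := A_even hb
      simp only [map_add, map_mul, map_pow, sg_x, sg_y, sg_z] at e
      obtain ⟨e0, e3⟩ := split_even (a := a0) (b := y * a3) (a' := sg b0) (b' := y * sg b3)
        (by linear_combination e)
      have e3' := mul_left_cancel₀ y_ne e3
      rcases ih m a0 b0 (by push_cast at hd; omega) h0 k0 e0 with r0 | ⟨j, hj, r0⟩ <;>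
      rcases ih (m - 2) a3 b3 (by push_cast at hd; omega) h3 k3 e3' with r3 | ⟨j', hj', r3⟩
      · left; rw [r0, r3]; ring
      · right; exact ⟨2 * j' + 1, by push_cast; omega, by rw [r0, r3]; ring⟩
      · right; exact ⟨2 * j, by push_cast; omega, by rw [r0, r3]; ring⟩
      · omega
    · obtain ⟨a1, h1, a2, h2, rfl⟩ := A_odd ha
      obtain ⟨b1, k1, b2, k2, rfl⟩ := A_odd hb
      simp only [map_add, map_mul, map_pow, sg_x, sg_y, sg_z] at e
      obtain ⟨e1, e2⟩ := split_odd (a := y * a1) (b := a2) (a' := sg b2) (b' := y * sg b1)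
        (by linear_combination e)
      have r1 : a1 = 0 := lemC (2 * m).toNat (m - 1) m 0 0 a1 b2 (by omega) h1 k2 (by simpa using e1)
      have r2 : b1 = 0 := lemC (2 * m).toNat (m - 1) m 0 0 b1 a2 (by omega) k1 h2 (by
        have := congrArg sg e2
        simpa [sg_sg] using this.symm)
      left
      rw [r1, e2, r2]; simp

end Pool.Agent.MP_fd75d0_co
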