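import Pool.Agent.MP_fd75d0_co.Core

set_option autoImplicit false

namespace Pool.Agent.MP_fd75d0_co

open MvPolynomial

noncomputable def fr : R →+* R := sb (x ^ 2) (y ^ 2)
noncomputable def kp : R →+* R := sb (x ^ 2) (y * z)

@[simp] lemma fr_x : fr x = x ^ 2 := by simp [fr]
@[simp] lemma fr_y : fr y = y ^ 2 := by simp [fr]
@[simp] lemma fr_z : fr z = z ^ 2 := by simp only [fr, sb_z]; rw [z_eq, sq_add_R]
@[simp] lemma kp_x : kp x = x ^ 2 := by simp [kp]
@[simp] lemma kp_y : kp y = y * z := by simp [kp]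
@[simp] lemma kp_z : kp z = x ^ 2 + y * z := by simp [kp]

lemma fr_sg (f : R) : fr (sg f) = sg (fr f) :=
  DFunLike.congr_fun (hom_ext (fr.comp sg) (sg.comp fr) (by simp) (by simp)) f
lemma fr_rh (f : R) : fr (rh f) = rh (fr f) :=
  DFunLike.congr_fun (hom_ext (fr.comp rh) (rh.comp fr) (by simp) (by simp)) f
lemma rh_eq (f : R) : rh f = ta (sg f) :=
  DFunLike.congr_fun (hom_ext rh (ta.comp sg) (by simp) (by simp)) f
lemma rh_sg (f : R) : rh (sg f) = ta f :=
  DFunLike.congr_fun (hom_ext (rh.comp sg) ta (by simp) (by simp)) f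

lemma fr_mem {d : ℤ} {f : R} (hf : f ∈ Hom d) : fr f ∈ Hom (2 * d) := by
  refine Hom_ind (P := fun f => fr f ∈ Hom (2 * d)) (by simp) ?_ ?_ hf
  · intro f g h1 h2; rw [map_add]; exact add_mem h1 h2
  · intro a b h
    simp only [map_mul, map_pow, fr_x, fr_y, ← pow_mul]
    apply mon_mem; push_cast; omega

lemma kp_A {d : ℤ} {a : R} (ha : a ∈ A d) :
    sg (kp a) = kp a ∧ ta (kp a) = kp a ∧ kp a ∈ Hom (2 * d) := by
  refine A_ind (P := fun a => sg (kp a) = kp a ∧ ta (kp a) = kp a ∧ kp a ∈ Hom (2 * d))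
    (by simp) ?_ ?_ ha
  · rintro f g ⟨h1, h2, h3⟩ ⟨k1, k2, k3⟩
    simp only [map_add]
    exact ⟨by rw [h1, k1], by rw [h2, k2], add_mem h3 k3⟩
  · intro i k h
    have q1 : z ^ 2 + y * x = x ^ 2 + y * z := by rw [z_eq]; linear_combination (x * y) * two_R
    simp only [map_mul, map_pow, map_add, kp_x, kp_y, kp_z, sg_x, sg_y, sg_z, ta_x, ta_y, ta_z]
    refine ⟨by rw [q1]; ring, by ring, ?_⟩
    have m1 : x ^ 2 * (y * z) ^ 2 ∈ Hom 6 := by
      have : x ^ 2 * (y * z) ^ 2 = x ^ 2 * y ^ 2 * z ^ 2 := by ring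
      rw [this]; exact mon3_mem _ _ _ (by norm_num)
    have m2 : x ^ 2 + y * z ∈ Hom 2 :=
      add_mem (pow1_mem x_mem 2 rfl) (Hom_mul y_mem z_mem rfl)
    exact Hom_mul (Hom_pow m1 i) (Hom_pow m2 k) (by omega)

/-- A dihedrally symmetric triangle of odd degree whose even rows have equal end cell and
central cell vanishes. -/
theorem sym_zero (χ : R →+ F) (g : ℤ) (t : ℕ) (hg : g = 2 * (t : ℤ) - 1)
    (hs : ∀ f ∈ Hom (2 * g + 1), χ (sg f) = χ f) (ht : ∀ f ∈ Hom (2 * g + 1), χ (ta f) = χ f)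
    (he : ∀ a b : ℕ, (a : ℤ) + b = g →
      χ (x ^ (2 * a) * y ^ (2 * b + 1)) = χ (x ^ (2 * a) * y ^ (b + 1) * z ^ b)) :
    ∀ f ∈ Hom (2 * g + 1), χ f = 0 := by
  have hr : ∀ f ∈ Hom (2 * g + 1), χ (rh f) = χ f := by
    intro f hf; rw [rh_eq, ht _ (sg_mem hf), hs _ hf]
  let ψ : R →+ F := χ.comp ((AddMonoidHom.mulLeft y).comp fr.toAddMonoidHom)
  have hψ : ∀ f, ψ f = χ (y * fr f) := fun f => rfl
  have ym : ∀ {f : R}, f ∈ Hom (2 * g) → y * f ∈ Hom (2 * g + 1) :=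
    fun hf => Hom_mul y_mem hf (by ring)
  have hΘ : ∀ f ∈ Hom g, ψ f = χ (y * kp f) := by
    intro f hf
    refine Hom_ind (P := fun f => ψ f = χ (y * kp f)) (by simp) ?_ ?_ hf
    · intro f g h1 h2; rw [map_add, h1, h2, map_add, mul_add, map_add]
    · intro a b hab
      rw [hψ]
      simp only [map_mul, map_pow, fr_x, fr_y, kp_x, kp_y]
      have := he a b hab
      convert this using 2 <;> ring
  have key := core (ψ := ψ) t hg ?_ ?_ ?_ ?_
  · intro f hf
    refine Hom_ind (P := fun f => χ f = 0) (by simp) ?_ ?_ hf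
    · intro f g h1 h2; rw [map_add, h1, h2, add_zero]
    · have aux : ∀ a b : ℕ, (a : ℤ) + b = g → χ (x ^ (2 * a) * y ^ (2 * b + 1)) = 0 := by
        intro a b hab
        have := key _ (mon_mem a b hab)
        rw [hψ] at this
        simp only [map_mul, map_pow, fr_x, fr_y] at this
        rw [← this]; congr 1; ring
      intro a b hab
      rcases Nat.even_or_odd' a with ⟨a, rfl | rfl⟩
      · obtain ⟨b, rfl⟩ : ∃ l, b = 2 * l + 1 := ⟨b / 2, by omega⟩
        exact aux a b (by push_cast at hab; omega)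
      · obtain ⟨b, rfl⟩ : ∃ l, b = 2 * l := ⟨b / 2, by omega⟩
        have m := mon_mem _ _ hab
        rw [← ht _ m, ← hr _ (ta_mem m), ← aux b a (by push_cast at hab; omega)]
        simp only [map_mul, map_pow, ta_x, ta_y, rh_x, rh_z]
        congr 1; ring
  · intro f hf
    rw [hψ, hψ, fr_sg, ← hs _ (ym (fr_mem hf)), map_mul sg, sg_y]
  · intro f hf
    have m := fr_mem hf
    have e1 : y * rh (fr f) = rh (x * fr f) := by rw [map_mul, rh_x]
    have e2 : y * rh (rh (fr f)) = rh (rh (z * fr f)) := by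
      rw [map_mul, map_mul, rh_z, rh_x]
    have m1 : x * fr f ∈ Hom (2 * g + 1) := Hom_mul x_mem m (by ring)
    have m2 : z * fr f ∈ Hom (2 * g + 1) := Hom_mul z_mem m (by ring)
    rw [hψ, hψ, hψ, fr_rh, fr_rh, fr_rh, e1, e2, hr _ m1, hr _ (rh_mem m2), hr _ m2,
      ← map_add, ← map_add, z_eq]
    have : y * fr f + x * fr f + (x + y) * fr f = 0 := by
      linear_combination ((x + y) * fr f) * two_R
    rw [this, map_zero]
  · intro a ha
    rw [hΘ _ (A_Hom ha)]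
    obtain ⟨k1, k2, k3⟩ := kp_A ha
    have e1 := ht _ (ym k3)
    have e2 := hs _ (Hom_mul z_mem k3 (by ring))
    rw [map_mul, k2, ta_y] at e1
    rw [map_mul, k1, sg_z] at e2
    have e3 : z * kp a = x * kp a + y * kp a := by rw [z_eq]; ring
    have e4 := congrArg χ e3
    rw [map_add, e2] at e4
    simpa using e4
  · intro a ha
    rw [hΘ _ (Hom_mul (A_Hom ha) (Hom_mul x_mem y_mem rfl) (by ring))]
    obtain ⟨k1, k2, k3⟩ := kp_A ha
    simp only [map_mul, kp_x, kp_y]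
    have m1 : y * (kp a * (x ^ 2 * (y * z))) ∈ Hom (2 * g + 1) :=
      Hom_mul y_mem (Hom_mul k3 (Hom_mul (pow1_mem x_mem 2 rfl) (Hom_mul y_mem z_mem rfl) rfl) rfl)
        (by push_cast; ring)
    have m2 : kp a * (y ^ 3 * z ^ 2) ∈ Hom (2 * g + 1) :=
      Hom_mul k3 (Hom_mul (pow1_mem y_mem 3 rfl) (pow1_mem z_mem 2 rfl) rfl) (by push_cast; ring)
    rw [← hs _ m1]
    have e2 := ht _ m2
    simp only [map_mul, map_pow, k1, k2, sg_x, sg_y, sg_z, ta_y, ta_z] at e2 ⊢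
    have e3 : y * (kp a * (z ^ 2 * (y * x))) = kp a * (z ^ 3 * y ^ 2) + kp a * (y ^ 3 * z ^ 2) := by
      have : x = y + z := by rw [z_eq]; linear_combination (-y) * two_R
      conv_lhs => rw [this]
      ring
    rw [e3, map_add, e2, add_self_F]

end Pool.Agent.MP_fd75d0_co
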