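import Pool.Agent.MP_fd75d0_co.Sym

set_option autoImplicit false

namespace Pool.Agent.MP_fd75d0_co

open MvPolynomial Finset

noncomputable def phi0 (s : ℕ → F) : Polynomial F →ₗ[F] F :=
  (Polynomial.basisMonomials F).constr F s

lemma phi0_X_pow (s : ℕ → F) (k : ℕ) : phi0 s (Polynomial.X ^ k) = s k := by
  have := (Polynomial.basisMonomials F).constr_basis F s k
  rw [Polynomial.coe_basisMonomials] at this
  simp only [Polynomial.monomial_one_right_eq_X_pow] at this
  exact this

noncomputable def dh : R →+* Polynomial F :=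
  eval₂Hom Polynomial.C ![1 + Polynomial.X, Polynomial.X]

lemma dh_x : dh x = 1 + Polynomial.X := by simp [dh, x]
lemma dh_y : dh y = Polynomial.X := by simp [dh, y]
lemma dh_z : dh z = 1 := by
  have h2 : (2 : Polynomial F) = 0 := by
    have : ((2 : ℕ) : Polynomial F) = 0 := CharP.cast_eq_zero _ 2
    simpa using this
  rw [z_eq, map_add, dh_x, dh_y]; linear_combination Polynomial.X * h2

noncomputable def phi (s : ℕ → F) : R →+ F :=
  (phi0 s).toAddMonoidHom.comp dh.toAddMonoidHom

lemma phi_apply (s : ℕ → F) (f : R) : phi s f = phi0 s (dh f) := rfl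

lemma phi_z (s : ℕ → F) (f : R) : phi s (f * z) = phi s f := by
  rw [phi_apply, map_mul, dh_z, mul_one, phi_apply]

lemma phi_z_pow (s : ℕ → F) (f : R) (c : ℕ) : phi s (f * z ^ c) = phi s f := by
  rw [phi_apply, map_mul, map_pow, dh_z, one_pow, mul_one, phi_apply]

/-- the entry in row a at offset b of the Steinhaus triangle -/
noncomputable def T (s : ℕ → F) (a b : ℕ) : F := phi s (x ^ a * y ^ b)

lemma phi_mon (s : ℕ → F) (a b c : ℕ) : phi s (x ^ a * y ^ b * z ^ c) = T s a b :=
  phi_z_pow s _ c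

lemma T_zero (s : ℕ → F) (b : ℕ) : T s 0 b = s b := by
  simp [T, phi_apply, dh_y, phi0_X_pow]

lemma T_succ (s : ℕ → F) (a b : ℕ) : T s (a + 1) b = T s a b + T s a (b + 1) := by
  rw [← phi_mon s a b 1, T, T, ← map_add]
  congr 1; rw [z_eq]; linear_combination (-(x ^ a * y ^ b * y)) * two_R

lemma T_formula (s : ℕ → F) (a b : ℕ) :
    T s a b = ∑ k ∈ range (a + 1), ((Nat.choose a k : ℕ) : F) * s (a + 1 + b - k - 1) := by
  rw [T, phi_apply, map_mul, map_pow, map_pow, dh_x, dh_y, add_pow, sum_mul, map_sum]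
  refine sum_congr rfl fun k hk => ?_
  have hk' : k ≤ a := by simpa [Nat.lt_succ_iff] using hk
  have : (1 : Polynomial F) ^ k * Polynomial.X ^ (a - k) * ((Nat.choose a k : ℕ) : Polynomial F)
      * Polynomial.X ^ b
      = ((Nat.choose a k : ℕ) : F) • Polynomial.X ^ (a + 1 + b - k - 1) := by
    have e : a + 1 + b - k - 1 = (a - k) + b := by omega
    rw [e, pow_add, Polynomial.smul_eq_C_mul, map_natCast]; ring
  rw [this, map_smul, phi0_X_pow, smul_eq_mul]

lemma gs (p q r : R) (h : p + q = r) (k : ℕ) :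
    r * ∑ b ∈ range k, p ^ b * q ^ (k - 1 - b) = p ^ k + q ^ k := by
  have := geom_sum₂_mul p q k
  subst h
  linear_combination this + (q * ∑ b ∈ range k, p ^ b * q ^ (k - 1 - b) - q ^ k) * two_R

lemma yz_x : y + z = x := by rw [z_eq]; linear_combination y * two_R

/-- the mirror relation for a triangle all of whose degrees are odd -/
lemma mirror (s : ℕ → F) (N : ℕ)
    (h : ∀ i ≤ N, ∑ a ∈ range i, T s a (i - 1 - a) + ∑ b ∈ range (N - i), T s i b = 1)
    {f : R} (hf : f ∈ Hom ((N : ℤ) - 1)) :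
    phi s (sg f) = phi s f + ev 0 1 f + ev 1 1 f := by
  have key : ∀ g ∈ Hom N, ∃ f', x * z * f' = z * g + ta (z * g) + rh (z * g) ∧
      phi s f' = ev 1 1 g := by
    intro g hg
    refine Hom_ind (P := fun g => ∃ f', x * z * f' = z * g + ta (z * g) + rh (z * g) ∧
      phi s f' = ev 1 1 g) ⟨0, by simp, by simp⟩ ?_ ?_ hg
    · rintro f g ⟨f', h1, h2⟩ ⟨g', k1, k2⟩
      refine ⟨f' + g', ?_, by rw [map_add, map_add, h2, k2]⟩
      simp only [map_add, mul_add]
      linear_combination h1 + k1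
    · intro i j hij
      have hj : j = N - i := by omega
      refine ⟨(∑ a ∈ range i, x ^ a * y ^ (i - 1 - a)) * z ^ j
        + x ^ i * ∑ b ∈ range j, y ^ b * z ^ (j - 1 - b), ?_, ?_⟩
      · have e1 := gs x y z z_eq.symm i
        have e2 := gs y z x yz_x j
        simp only [map_mul, map_pow, ta_x, ta_y, ta_z, rh_x, rh_y, rh_z]
        linear_combination (x * z ^ j) * e1 + (z * x ^ i) * e2 + (x ^ i * z ^ j) * z_eq
          + (x ^ i * z ^ j * x) * two_R
      · have := h i (by omega)
        rw [map_add, phi_z_pow, map_sum, mul_sum, map_sum]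
        simp only [← mul_assoc, phi_mon, ← hj] at this ⊢
        simpa [T] using this
  have hg : x * (f + sg f) ∈ Hom N := Hom_mul x_mem (add_mem hf (sg_mem hf)) (by ring)
  obtain ⟨f', h1, h2⟩ := key _ hg
  have hG : sg (z * (x * (f + sg f))) = z * (x * (f + sg f)) := by
    simp only [map_mul, map_add, sg_x, sg_z, sg_sg]; ring
  have hG2 : rh (z * (x * (f + sg f))) = ta (z * (x * (f + sg f))) := by
    rw [← rh_sg, hG]
  rw [hG2, add_assoc, add_self_R, add_zero] at h1
  have : f' = f + sg f := by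
    apply mul_left_cancel₀ (mul_ne_zero x_ne z_ne)
    rw [h1]; ring
  subst this
  have e : ev 1 1 (sg f) = ev 0 1 f :=
    DFunLike.congr_fun (hom_ext ((ev 1 1).comp sg) (ev 0 1) (by simp; decide) (by simp)) f
  simp only [map_add, map_mul, ev_x, one_mul, e] at h2
  have h3 := add_self_F (phi s f)
  linear_combination h2 - h3

lemma mirror_T (s : ℕ → F) (N : ℕ)
    (h : ∀ i ≤ N, ∑ a ∈ range i, T s a (i - 1 - a) + ∑ b ∈ range (N - i), T s i b = 1)
    (a b c : ℕ) (habc : a + b + c + 1 = N) : T s c b = T s a b + 0 ^ a + 0 ^ c := by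
  have := mirror s N h (mon3_mem a b c (by omega))
  simp only [map_mul, map_pow, sg_x, sg_y, sg_z, ev_x, ev_y, ev_z, phi_mon] at this
  have e : z ^ a * y ^ b * x ^ c = x ^ c * y ^ b * z ^ a := by ring
  have e2 : (1 : F) + 1 = 0 := by decide
  rw [e, phi_mon, e2] at this
  simpa using this

end Pool.Agent.MP_fd75d0_co
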